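import Mathlib

/-!
# Rough hyperbolic geometry (for `MP_b77ed1_al`)

A distance function `d` (any function, no metric space needed) which satisfies the four-point
condition up to `c` and has rough geodesics. Quasi-geodesics, geodesics of graphs.
-/

set_option autoImplicit false

namespace Pool.Agent.H49.HY

universe u v

/-- a rough geodesic from `x` to `y` with `n` steps -/
structure RG {X : Type u} (d : X → X → ℝ) (c : ℝ) (n : ℕ) (w : ℕ → X) (x y : X) : Prop where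
  s : w 0 = x
  e : w n = y
  le : ∀ i j, i ≤ j → j ≤ n → d (w i) (w j) ≤ (j : ℝ) - i + c
  ge : ∀ i j, i ≤ j → j ≤ n → (j : ℝ) - i - c ≤ d (w i) (w j)

/-- roughly geodesic, roughly hyperbolic distance functions -/
structure RH {X : Type u} (d : X → X → ℝ) (c : ℝ) : Prop where
  one_le : 1 ≤ c
  nonneg : ∀ x y, 0 ≤ d x y
  symm : ∀ x y, d x y = d y x
  fp : ∀ x y z w, d x y + d z w ≤ max (d x z + d y w) (d x w + d y z) + c
  geo : ∀ x y, ∃ (n : ℕ) (w : ℕ → X), RG d c n w x y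

/-- a quasi-geodesic with `N` steps -/
structure QG {X : Type u} (d : X → X → ℝ) (L : ℝ) (N : ℕ) (p : ℕ → X) : Prop where
  le : ∀ i j, i ≤ j → j ≤ N → d (p i) (p j) ≤ L * ((j : ℝ) - i) + L
  ge : ∀ i j, i ≤ j → j ≤ N → (j : ℝ) - i ≤ L * d (p i) (p j) + L

/-- geodesics of a graph -/
structure GP {V : Type v} (Γ : SimpleGraph V) (N : ℕ) (p : ℕ → V) (a b : V) : Prop where
  s : p 0 = a
  e : p N = b
  d : ∀ i j, i ≤ j → j ≤ N → Γ.dist (p i) (p j) = j - i

/-- geodesic triangles of the graph are `K`-slim -/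
def SlimG {V : Type v} (Γ : SimpleGraph V) (K : ℕ) : Prop :=
  ∀ (N : ℕ) (p : ℕ → V) (N1 : ℕ) (q : ℕ → V) (N2 : ℕ) (r : ℕ → V) (a b c : V),
    GP Γ N p a c → GP Γ N1 q a b → GP Γ N2 r b c → ∀ i ≤ N,
      (∃ j ≤ N1, Γ.dist (p i) (q j) ≤ K) ∨ (∃ j ≤ N2, Γ.dist (p i) (r j) ≤ K)

end Pool.Agent.H49.HY
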