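import Pool.Agent.H89.SG.Swap
import Pool.Agent.H49.HY.Defs

/-!
# The four-point condition of the complex ball
-/

set_option autoImplicit false

namespace Pool.Agent.H49.HY

open Complex Pool.Agent.H89.SG
open scoped ComplexConjugate

/-- points of the ball -/
abbrev BX : Type := {z : E // z ∈ ball}

/-- the distance of the ball, up to a bounded error -/
noncomputable def dB (x y : BX) : ℝ := -Real.log (1 - dl x.1 y.1) / 2

theorem her_sub_left (x y z : E) : her (x - y) z = her x z - her y z := by
  simp only [her, Prod.fst_sub, Prod.snd_sub]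
  ring

theorem her_sub_right (x y z : E) : her x (y - z) = her x y - her x z := by
  simp only [her, Prod.fst_sub, Prod.snd_sub, map_sub]
  ring

theorem nsq_sub_eq (x y : E) : nsq (x - y) = nsq x + nsq y - 2 * (her x y).re := by
  simp only [nsq, her, Prod.fst_sub, Prod.snd_sub, normSq_apply, sub_re, sub_im, add_re, mul_re,
    conj_re, conj_im]
  ring

theorem norm_her_comm (x y : E) : ‖1 - her x y‖ = ‖1 - her y x‖ := by
  rw [← her_conj x y, ← Complex.norm_conj, map_sub, map_one]

/-- the function `|1 - <x, y>|` satisfies the triangle inequality up to a factor four -/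
theorem her_tri {x y z : E} (hx : x ∈ ball) (hy : y ∈ ball) (hz : z ∈ ball) :
    ‖1 - her x y‖ ≤ 4 * (‖1 - her x z‖ + ‖1 - her z y‖) := by
  have hx1 : nsq x < 1 := hx
  have hy1 : nsq y < 1 := hy
  have hz1 : nsq z < 1 := hz
  obtain ⟨b, hb⟩ : ∃ b : ℝ, b = ‖1 - her x z‖ := ⟨_, rfl⟩
  obtain ⟨c, hc⟩ : ∃ c : ℝ, c = ‖1 - her z y‖ := ⟨_, rfl⟩
  have hb0 : 0 ≤ b := by rw [hb]; exact norm_nonneg _
  have hc0 : 0 ≤ c := by rw [hc]; exact norm_nonneg _
  have e1 : 1 - her x y = (1 - her x z) + (her (x - z) (z - y) + her z (z - y)) := by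
    rw [her_sub_left, her_sub_right, her_sub_right]
    ring
  -- the term `<x - z, z - y>`
  have e2 : nsq (x - z) ≤ 2 * b := by
    rw [nsq_sub_eq, hb]
    have h1 := Complex.re_le_norm (1 - her x z)
    rw [sub_re, one_re] at h1
    linarith
  have e3 : nsq (z - y) ≤ 2 * c := by
    rw [nsq_sub_eq, hc]
    have h1 := Complex.re_le_norm (1 - her z y)
    rw [sub_re, one_re] at h1
    linarith
  have e4 : ‖her (x - z) (z - y)‖ ≤ b + c := by
    have h1 := normSq_her_le (x - z) (z - y)
    rw [normSq_eq_norm_sq] at h1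
    have h2 : nsq (x - z) * nsq (z - y) ≤ (2 * b) * (2 * c) :=
      mul_le_mul e2 e3 (nsq_nonneg _) (by linarith)
    refine le_of_sq_le_sq ?_ (by linarith)
    nlinarith [sq_nonneg (b - c)]
  -- the term `<z, z - y>`
  have e5 : 1 - nsq z ≤ 2 * c := by
    have h1 := normSq_her_le z y
    rw [normSq_eq_norm_sq] at h1
    have h2 : ‖her z y‖ ^ 2 ≤ nsq z := by
      have := mul_le_mul_of_nonneg_left hy1.le (nsq_nonneg z)
      linarith
    have h3 : 1 - ‖her z y‖ ≤ c := by
      rw [hc]
      have := norm_sub_norm_le (1 : ℂ) (her z y)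
      rw [norm_one] at this
      exact this
    have h4 : ‖her z y‖ < 1 := by
      have h5 := norm_nonneg (her z y)
      nlinarith
    have h6 := norm_nonneg (her z y)
    nlinarith
  have e6 : ‖her z (z - y)‖ ≤ 3 * c := by
    have h1 : her z (z - y) = (1 - her z y) - ((1 - nsq z : ℝ) : ℂ) := by
      rw [her_sub_right, her_self]
      push_cast
      ring
    rw [h1]
    refine (norm_sub_le _ _).trans ?_
    rw [Complex.norm_real, Real.norm_eq_abs, abs_of_nonneg (by linarith), ← hc]
    linarith
  rw [e1, ← hb, ← hc]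
  refine (norm_add_le _ _).trans ?_
  have e7 := norm_add_le (her (x - z) (z - y)) (her z (z - y))
  rw [← hb]
  linarith

theorem norm_her_pos (x y : BX) : 0 < ‖1 - her x.1 y.1‖ :=
  norm_pos_iff.2 (one_sub_her_ne x.2 y.2)

theorem one_sub_nsq_pos (x : BX) : 0 < 1 - nsq x.1 := by
  have : nsq x.1 < 1 := x.2
  linarith

theorem dB_eq (x y : BX) : dB x y =
    Real.log ‖1 - her x.1 y.1‖ - (Real.log (1 - nsq x.1) + Real.log (1 - nsq y.1)) / 2 := by
  unfold dB dl
  have h1 := norm_her_pos x y
  have h2 := one_sub_nsq_pos x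
  have h3 := one_sub_nsq_pos y
  have h4 : 1 - (1 - (1 - nsq x.1) * (1 - nsq y.1) / normSq (1 - her x.1 y.1)) =
      (1 - nsq x.1) * (1 - nsq y.1) / ‖1 - her x.1 y.1‖ ^ 2 := by
    rw [normSq_eq_norm_sq]
    ring
  rw [h4, Real.log_div (mul_pos h2 h3).ne' (pow_pos h1 2).ne', Real.log_mul h2.ne' h3.ne',
    Real.log_pow]
  push_cast
  ring

theorem dB_nonneg (x y : BX) : 0 ≤ dB x y := by
  unfold dB
  have h1 := dl_nonneg x.2 y.2
  have h2 := dl_lt_one x.2 y.2
  have h3 : Real.log (1 - dl x.1 y.1) ≤ 0 := Real.log_nonpos (by linarith) (by linarith)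
  linarith

theorem dB_symm (x y : BX) : dB x y = dB y x := by
  unfold dB
  rw [dl_symm]

theorem dB_self (x : BX) : dB x x = 0 := by
  unfold dB
  rw [dl_self x.2]
  simp

/-- the multiplicative four-point condition -/
theorem her_four (x y z w : BX) :
    ‖1 - her x.1 y.1‖ * ‖1 - her z.1 w.1‖ ≤ 64 *
      max (‖1 - her x.1 z.1‖ * ‖1 - her y.1 w.1‖) (‖1 - her x.1 w.1‖ * ‖1 - her y.1 z.1‖) := by
  obtain ⟨a, ha⟩ : ∃ a : BX → BX → ℝ, a = fun x y => ‖1 - her x.1 y.1‖ := ⟨_, rfl⟩
  have hpos : ∀ x y, 0 < a x y := fun x y => by rw [ha]; exact norm_her_pos x y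
  have hsym : ∀ x y, a x y = a y x := fun x y => by rw [ha]; exact norm_her_comm _ _
  have htri : ∀ x y z, a x y ≤ 4 * (a x z + a z y) := fun x y z => by
    rw [ha]
    exact her_tri x.2 y.2 z.2
  -- if `a p r` is at most `a q r` and `a p s` then `a p q * a r s ≤ 64 * (a q r * a p s)`
  have key : ∀ p q r s : BX, a p r ≤ a r q → a p r ≤ a p s →
      a p q * a r s ≤ 64 * (a p s * a q r) := by
    intro p q r s h1 h2
    have h3 := htri p q r
    have h4 := htri r s p
    rw [hsym r p] at h4
    have h5 : a p q ≤ 8 * a r q := by linarith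
    have h6 : a r s ≤ 8 * a p s := by linarith
    have h7 := mul_le_mul h5 h6 (hpos r s).le (by linarith [hpos r q])
    rw [hsym q r]
    nlinarith
  have hgoal : a x y * a z w ≤ 64 * max (a x z * a y w) (a x w * a y z) := by
    have hm1 := le_max_left (a x z * a y w) (a x w * a y z)
    have hm2 := le_max_right (a x z * a y w) (a x w * a y z)
    -- the minimum of the four cross terms
    rcases le_total (a x z) (a y w) with h1 | h1 <;> rcases le_total (a x w) (a y z) with h2 | h2
    · -- `a x z ≤ a y w`, `a x w ≤ a y z`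
      rcases le_total (a x z) (a x w) with h3 | h3
      · have := key x y z w (by rw [hsym z y]; linarith) h3
        linarith
      · have := key x y w z (by rw [hsym w y]; linarith) h3
        rw [hsym w z] at this
        linarith
    · -- `a x z ≤ a y w`, `a y z ≤ a x w`
      rcases le_total (a x z) (a y z) with h3 | h3
      · have := key x y z w (by rw [hsym z y]; linarith) (by linarith)
        linarith
      · have := key y x z w (by rw [hsym z x]; linarith) (by linarith)
        rw [hsym y x] at this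
        linarith [mul_comm (a y w) (a x z)]
    · -- `a y w ≤ a x z`, `a x w ≤ a y z`
      rcases le_total (a y w) (a x w) with h3 | h3
      · have := key y x w z (by rw [hsym w x]; linarith) (by linarith)
        rw [hsym y x, hsym w z] at this
        linarith [mul_comm (a y z) (a x w)]
      · have := key x y w z (by rw [hsym w y]; linarith) (by linarith)
        rw [hsym w z] at this
        linarith
    · -- `a y w ≤ a x z`, `a y z ≤ a x w`
      rcases le_total (a y w) (a y z) with h3 | h3
      · have := key y x w z (by rw [hsym w x]; linarith) h3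
        rw [hsym y x, hsym w z] at this
        linarith [mul_comm (a y z) (a x w)]
      · have := key y x z w (by rw [hsym z x]; linarith) h3
        rw [hsym y x] at this
        linarith [mul_comm (a y w) (a x z)]
  rw [ha] at hgoal
  exact hgoal

theorem dB_fp (x y z w : BX) :
    dB x y + dB z w ≤ max (dB x z + dB y w) (dB x w + dB y z) + 5 := by
  have h64 : Real.log 64 ≤ 5 := by
    have h1 : (64 : ℝ) = 2 ^ 6 := by norm_num
    rw [h1, Real.log_pow]
    have h2 := Real.log_two_lt_d9
    push_cast
    linarith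
  have h := her_four x y z w
  have p1 := norm_her_pos x y
  have p2 := norm_her_pos z w
  have p3 := norm_her_pos x z
  have p4 := norm_her_pos y w
  have p5 := norm_her_pos x w
  have p6 := norm_her_pos y z
  rw [dB_eq, dB_eq, dB_eq, dB_eq, dB_eq, dB_eq]
  rcases le_total (‖1 - her x.1 z.1‖ * ‖1 - her y.1 w.1‖) (‖1 - her x.1 w.1‖ * ‖1 - her y.1 z.1‖)
    with h1 | h1
  · rw [max_eq_right h1] at h
    have h2 := Real.log_le_log (mul_pos p1 p2) h
    rw [Real.log_mul p1.ne' p2.ne', Real.log_mul (by norm_num) (mul_pos p5 p6).ne',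
      Real.log_mul p5.ne' p6.ne'] at h2
    refine le_trans ?_ (add_le_add_left (le_max_right _ _) _)
    linarith
  · rw [max_eq_left h1] at h
    have h2 := Real.log_le_log (mul_pos p1 p2) h
    rw [Real.log_mul p1.ne' p2.ne', Real.log_mul (by norm_num) (mul_pos p3 p4).ne',
      Real.log_mul p3.ne' p4.ne'] at h2
    refine le_trans ?_ (add_le_add_left (le_max_left _ _) _)
    linarith

end Pool.Agent.H49.HY
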