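import Pool.Agent.H49.HY.Defs

/-!
# Cayley graphs
-/

set_option autoImplicit false

namespace Pool.Agent.H49.HY

universe u

variable {G : Type u} [Group G] {S : Finset G}

/-- the Cayley graph -/
abbrev Cay (S : Finset G) : SimpleGraph G := SimpleGraph.fromRel fun g h : G => g⁻¹ * h ∈ S

theorem cay_adj {g h : G} : (Cay S).Adj g h ↔ g ≠ h ∧ (g⁻¹ * h ∈ S ∨ h⁻¹ * g ∈ S) := by
  rw [SimpleGraph.fromRel_adj]

theorem cay_adj_left {g h : G} (k : G) (hgh : (Cay S).Adj g h) : (Cay S).Adj (k * g) (k * h) := by
  rw [cay_adj] at hgh ⊢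
  have e : ∀ a b : G, (k * a)⁻¹ * (k * b) = a⁻¹ * b := fun a b => by group
  rw [e, e]
  exact ⟨fun h0 => hgh.1 (mul_left_cancel h0), hgh.2⟩

theorem cay_connected (hS : Subgroup.closure (S : Set G) = ⊤) : (Cay S).Connected := by
  have key : ∀ g : G, ∀ h : G, (Cay S).Reachable h (h * g) := by
    intro g
    have hg : g ∈ Subgroup.closure (S : Set G) := by
      rw [hS]
      exact Subgroup.mem_top g
    induction hg using Subgroup.closure_induction with
    | mem s hs =>
      intro h
      by_cases h1 : h = h * s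
      · rw [← h1]
      · refine SimpleGraph.Adj.reachable ?_
        rw [cay_adj]
        refine ⟨h1, Or.inl ?_⟩
        rw [inv_mul_cancel_left]
        exact hs
    | one =>
      intro h
      rw [mul_one]
    | mul a b _ _ ha hb =>
      intro h
      rw [← mul_assoc]
      exact (ha h).trans (hb (h * a))
    | inv a _ ha =>
      intro h
      have := ha (h * a⁻¹)
      rw [inv_mul_cancel_right] at this
      exact this.symm
  have : Nonempty G := ⟨1⟩
  refine SimpleGraph.Connected.mk fun g h => ?_
  have := key (g⁻¹ * h) g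
  rwa [mul_inv_cancel_left] at this

theorem cay_dist_left (hc : (Cay S).Connected) (k g h : G) :
    (Cay S).dist (k * g) (k * h) = (Cay S).dist g h := by
  have key : ∀ k g h : G, (Cay S).dist (k * g) (k * h) ≤ (Cay S).dist g h := by
    intro k g h
    obtain ⟨W, hW⟩ := hc.exists_walk_length_eq_dist g h
    let f : (Cay S) →g (Cay S) := ⟨fun x => k * x, fun {a b} hab => cay_adj_left k hab⟩
    have h1 := SimpleGraph.dist_le (W.map f)
    rw [SimpleGraph.Walk.length_map, hW] at h1
    exact h1
  refine le_antisymm (key k g h) ?_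
  have := key k⁻¹ (k * g) (k * h)
  rwa [inv_mul_cancel_left, inv_mul_cancel_left] at this

end Pool.Agent.H49.HY
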