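import Pool.Agent.H49.HY.Defs

/-!
# Graphs with slim geodesic triangles satisfy the four-point condition
-/

set_option autoImplicit false

namespace Pool.Agent.H49.HY

universe u v

variable {V : Type v} {Γ : SimpleGraph V}

theorem exists_gp (hc : Γ.Connected) (a b : V) : ∃ p, GP Γ (Γ.dist a b) p a b := by
  obtain ⟨W, hW⟩ := hc.exists_walk_length_eq_dist a b
  have key : ∀ k i : ℕ, i + k ≤ W.length → Γ.dist (W.getVert i) (W.getVert (i + k)) ≤ k := by
    intro k
    induction k with
    | zero => intro i _; simp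
    | succ k ih =>
      intro i hi
      have h1 := ih i (by omega)
      have h2 := W.adj_getVert_succ (i := i + k) (by omega)
      have h3 := SimpleGraph.dist_eq_one_iff_adj.2 h2
      have h4 := hc.dist_triangle (u := W.getVert i) (v := W.getVert (i + k))
        (w := W.getVert (i + (k + 1)))
      have h5 : i + (k + 1) = i + k + 1 := rfl
      rw [h5] at h4 ⊢
      omega
  refine ⟨W.getVert, ⟨W.getVert_zero, ?_, ?_⟩⟩
  · rw [← hW]
    exact W.getVert_length
  · intro i j hij hj
    rw [← hW] at hj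
    have h1 := key (j - i) i (by omega)
    have h2 := key i 0 (by omega)
    have h3 := key (W.length - j) j (by omega)
    have e1 : i + (j - i) = j := by omega
    have e2 : j + (W.length - j) = W.length := by omega
    rw [e1] at h1
    rw [Nat.zero_add, W.getVert_zero] at h2
    rw [e2, W.getVert_length] at h3
    have h4 := hc.dist_triangle (u := a) (v := W.getVert i) (w := b)
    have h5 := hc.dist_triangle (u := W.getVert i) (v := W.getVert j) (w := b)
    omega

theorem GP.dist_left {N : ℕ} {p : ℕ → V} {a b : V} (h : GP Γ N p a b) {i : ℕ} (hi : i ≤ N) :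
    Γ.dist a (p i) = i := by
  have := h.d 0 i (Nat.zero_le _) hi
  rw [h.s] at this
  exact this

theorem GP.dist_right {N : ℕ} {p : ℕ → V} {a b : V} (h : GP Γ N p a b) {i : ℕ} (hi : i ≤ N) :
    Γ.dist (p i) b = N - i := by
  have := h.d i N hi le_rfl
  rw [h.e] at this
  exact this

theorem GP.dist_all {N : ℕ} {p : ℕ → V} {a b : V} (h : GP Γ N p a b) :
    Γ.dist a b = N := by
  have := h.dist_left (i := N) le_rfl
  rw [h.e] at this
  exact this

/-- the triangle inequality for a point on a geodesic -/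
private theorem gra_tri (hc : Γ.Connected) {N : ℕ} {p : ℕ → V} {a b : V} (h : GP Γ N p a b) {i : ℕ}
    (hi : i ≤ N) (w : V) : Γ.dist a w + Γ.dist b w ≤ Γ.dist a b + 2 * Γ.dist (p i) w := by
  have h1 := hc.dist_triangle (u := a) (v := p i) (w := w)
  have h2 := hc.dist_triangle (u := b) (v := p i) (w := w)
  rw [h.dist_left hi] at h1
  rw [SimpleGraph.dist_comm (u := b) (v := p i), h.dist_right hi] at h2
  rw [h.dist_all]
  omega

/-- the distance of a point to a geodesic is at most the Gromov product up to a constant -/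
private theorem gra_prod (hc : Γ.Connected) {K : ℕ} (hK : SlimG Γ K) {N : ℕ} {p : ℕ → V} {x y : V}
    (h : GP Γ N p x y) (w : V) :
    ∃ i ≤ N, 2 * Γ.dist (p i) w + Γ.dist x y ≤ Γ.dist x w + Γ.dist y w + (4 * K + 2) := by
  classical
  obtain ⟨q, hq⟩ := exists_gp hc x w
  obtain ⟨r, hr⟩ := exists_gp hc w y
  have hs := hK N p _ q _ r x w y h hq hr
  obtain ⟨P, hP⟩ : ∃ P : ℕ → Prop,
      P = fun i => ∃ j ≤ Γ.dist x w, Γ.dist (p i) (q j) ≤ K := ⟨_, rfl⟩
  have hP0 : P 0 := by
    rw [hP]
    refine ⟨0, Nat.zero_le _, ?_⟩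
    rw [h.s, hq.s, SimpleGraph.dist_self]
    exact Nat.zero_le _
  obtain ⟨t, ht⟩ : ∃ t, t = Nat.findGreatest P N := ⟨_, rfl⟩
  have htn : t ≤ N := by rw [ht]; exact Nat.findGreatest_le N
  have hPt : P t := by
    rw [ht]
    exact Nat.findGreatest_spec (Nat.zero_le N) hP0
  have hmax : ∀ k, t < k → k ≤ N → ¬ P k := fun k hk hkn => by
    rw [ht] at hk
    exact Nat.findGreatest_is_greatest hk hkn
  rw [hP] at hPt
  obtain ⟨j, hj, hj2⟩ := hPt
  obtain ⟨t', htt', ht'1, ht'N, j', hj', hj'2⟩ : ∃ t', t ≤ t' ∧ t' ≤ t + 1 ∧ t' ≤ N ∧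
      ∃ j' ≤ Γ.dist w y, Γ.dist (p t') (r j') ≤ K := by
    rcases htn.eq_or_lt with h1 | h1
    · refine ⟨t, le_rfl, Nat.le_succ t, htn, Γ.dist w y, le_rfl, ?_⟩
      rw [h1, h.e, hr.e, SimpleGraph.dist_self]
      exact Nat.zero_le _
    · rcases hs (t + 1) h1 with h2 | h2
      · exact absurd (by rw [hP]; exact h2) (hmax (t + 1) (Nat.lt_succ_self t) h1)
      · exact ⟨t + 1, Nat.le_succ t, le_rfl, h1, h2⟩
  refine ⟨t, htn, ?_⟩
  have a1 := h.dist_left htn
  have a2 := h.dist_right htn
  have a3 := h.dist_all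
  have b1 := hq.dist_left hj
  have b2 := hq.dist_right hj
  have c1 := hr.dist_left hj'
  have c2 := hr.dist_right hj'
  have d1 := h.d t t' htt' ht'N
  have t1 := hc.dist_triangle (u := x) (v := q j) (w := p t)
  have t2 := hc.dist_triangle (u := p t) (v := q j) (w := w)
  have t3 := hc.dist_triangle (u := p t) (v := p t') (w := y)
  have t4 := hc.dist_triangle (u := p t') (v := r j') (w := y)
  have t5 := hc.dist_triangle (u := p t) (v := p t') (w := w)
  have t6 := hc.dist_triangle (u := p t') (v := r j') (w := w)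
  rw [SimpleGraph.dist_comm (u := q j) (v := p t)] at t1
  rw [SimpleGraph.dist_comm (u := r j') (v := w)] at t6
  rw [SimpleGraph.dist_comm (u := y) (v := w)]
  omega

theorem four_of_slim (hc : Γ.Connected) {K : ℕ} (hK : SlimG Γ K) (x y z w : V) :
    Γ.dist x y + Γ.dist z w ≤
      max (Γ.dist x z + Γ.dist y w) (Γ.dist x w + Γ.dist y z) + 2 * (3 * K + 1) := by
  obtain ⟨p, hp⟩ := exists_gp hc x y
  obtain ⟨q, hq⟩ := exists_gp hc x z
  obtain ⟨r, hr⟩ := exists_gp hc z y
  obtain ⟨i, hi, h1⟩ := gra_prod hc hK hp w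
  rcases hK _ p _ q _ r x z y hp hq hr i hi with ⟨j, hj, h2⟩ | ⟨j, hj, h2⟩
  · have h3 := gra_tri hc hq hj w
    have h4 := hc.dist_triangle (u := q j) (v := p i) (w := w)
    rw [SimpleGraph.dist_comm (u := q j) (v := p i)] at h4
    have h5 := le_max_left (Γ.dist x z + Γ.dist y w) (Γ.dist x w + Γ.dist y z)
    omega
  · have h3 := gra_tri hc hr hj w
    have h4 := hc.dist_triangle (u := r j) (v := p i) (w := w)
    rw [SimpleGraph.dist_comm (u := r j) (v := p i)] at h4
    have h5 := le_max_right (Γ.dist x z + Γ.dist y w) (Γ.dist x w + Γ.dist y z)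
    rw [SimpleGraph.dist_comm (u := z) (v := y)] at h3
    omega

end Pool.Agent.H49.HY
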