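import Pool.Agent.H49.HY.Mo2
import Pool.Agent.H49.HY.Gra

/-!
# A graph quasi-isometrically embedded in a rough hyperbolic geodesic space is hyperbolic
-/

set_option autoImplicit false

namespace Pool.Agent.H49.HY

universe u v

variable {X : Type u} {d : X → X → ℝ} {c : ℝ} {V : Type v} {Γ : SimpleGraph V}

private theorem fina_qg {f : V → X} {L : ℝ} (h1 : ∀ a b, d (f a) (f b) ≤ L * Γ.dist a b + L)
    (h2 : ∀ a b, (Γ.dist a b : ℝ) ≤ L * d (f a) (f b) + L) {N : ℕ} {p : ℕ → V} {a b : V}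
    (hp : GP Γ N p a b) : QG d L N (fun i => f (p i)) := by
  refine ⟨fun i j hij hj => ?_, fun i j hij hj => ?_⟩
  · have e1 := h1 (p i) (p j)
    rw [hp.d i j hij hj, Nat.cast_sub hij] at e1
    exact e1
  · have e1 := h2 (p i) (p j)
    rw [hp.d i j hij hj, Nat.cast_sub hij] at e1
    exact e1

theorem four_abs (hc : Γ.Connected) (h : RH d c) (f : V → X) {L : ℝ} (hL : 1 ≤ L)
    (h1 : ∀ a b, d (f a) (f b) ≤ L * Γ.dist a b + L)
    (h2 : ∀ a b, (Γ.dist a b : ℝ) ≤ L * d (f a) (f b) + L) :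
    ∃ δ : ℕ, ∀ x y z w : V, Γ.dist x y + Γ.dist z w ≤
      max (Γ.dist x z + Γ.dist y w) (Γ.dist x w + Γ.dist y z) + 2 * δ := by
  obtain ⟨K, hK⟩ := slimQ h hL
  obtain ⟨K', hK'⟩ := exists_nat_ge (L * K + L)
  refine ⟨3 * K' + 1, fun x y z w => four_of_slim hc (K := K') ?_ x y z w⟩
  intro N p N1 q N2 r a b e hp hq hr i hi
  have hb : ∀ u v : V, d (f u) (f v) ≤ K → Γ.dist u v ≤ K' := fun u v huv => by
    have e1 := h2 u v
    have e2 : L * d (f u) (f v) ≤ L * K := mul_le_mul_of_nonneg_left huv (by linarith)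
    have e3 : (Γ.dist u v : ℝ) ≤ K' := by linarith
    exact_mod_cast e3
  have hs := hK N _ N1 _ N2 _ (fina_qg h1 h2 hp) (fina_qg h1 h2 hq) (fina_qg h1 h2 hr)
    (by simp only [hq.s, hp.s]) (by simp only [hq.e, hr.s]) (by simp only [hr.e, hp.e]) i hi
  rcases hs with ⟨j, hj, hj2⟩ | ⟨j, hj, hj2⟩
  · exact Or.inl ⟨j, hj, hb _ _ hj2⟩
  · exact Or.inr ⟨j, hj, hb _ _ hj2⟩

end Pool.Agent.H49.HY
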