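import Pool.Agent.H49.HY.Bal

/-!
# Rough geodesics of the ball
-/

set_option autoImplicit false

namespace Pool.Agent.H49.HY

open Complex Pool.Agent.H89.SG
open scoped ComplexConjugate

private theorem geo_her (e : E) (he : nsq e = 1) (s t : ℝ) :
    her (s • e) (t • e) = ((s * t : ℝ) : ℂ) := by
  have h1 : her (s • e) (t • e) = ((s * t : ℝ) : ℂ) * her e e := by
    simp only [her, Prod.smul_fst, Prod.smul_snd, real_smul, map_mul, conj_ofReal]
    push_cast
    ring
  rw [h1, her_self, he]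
  simp

private theorem geo_nsq (e : E) (he : nsq e = 1) (t : ℝ) : nsq (t • e) = t ^ 2 := by
  rw [nsq_smul_real, he, mul_one]

private theorem geo_tanh (t : ℝ) : Real.tanh t ^ 2 < 1 := by
  have h1 := Real.cosh_pos t
  have h2 := Real.cosh_sq t
  rw [Real.tanh_eq_sinh_div_cosh, div_pow, div_lt_one (pow_pos h1 2)]
  linarith

theorem geo_mem (e : E) (he : nsq e = 1) (t : ℝ) : Real.tanh t • e ∈ ball := by
  change nsq _ < 1
  rw [geo_nsq e he]
  exact geo_tanh t

/-- the radial point at distance `t` -/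
noncomputable def rad (e : E) (he : nsq e = 1) (t : ℝ) : BX := ⟨Real.tanh t • e, geo_mem e he t⟩

theorem dB_rad (e : E) (he : nsq e = 1) (s t : ℝ) :
    dB (rad e he s) (rad e he t) = Real.log (Real.cosh (s - t)) := by
  have hs := Real.cosh_pos s
  have ht := Real.cosh_pos t
  have hst := Real.cosh_pos (s - t)
  have h1 : 1 - Real.tanh s ^ 2 = (Real.cosh s ^ 2)⁻¹ := by
    have h2 := Real.cosh_sq s
    rw [Real.tanh_eq_sinh_div_cosh]
    field_simp
    linarith
  have h2 : 1 - Real.tanh t ^ 2 = (Real.cosh t ^ 2)⁻¹ := by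
    have h2 := Real.cosh_sq t
    rw [Real.tanh_eq_sinh_div_cosh]
    field_simp
    linarith
  have h3 : 1 - Real.tanh s * Real.tanh t = Real.cosh (s - t) / (Real.cosh s * Real.cosh t) := by
    rw [Real.cosh_sub, Real.tanh_eq_sinh_div_cosh, Real.tanh_eq_sinh_div_cosh]
    field_simp
  have h4 : ‖1 - her (Real.tanh s • e) (Real.tanh t • e)‖ =
      Real.cosh (s - t) / (Real.cosh s * Real.cosh t) := by
    rw [geo_her e he, ← ofReal_one, ← ofReal_sub, Complex.norm_real, h3, Real.norm_eq_abs,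
      abs_of_pos (div_pos hst (mul_pos hs ht))]
  rw [dB_eq]
  change Real.log ‖1 - her (Real.tanh s • e) (Real.tanh t • e)‖ -
    (Real.log (1 - nsq (Real.tanh s • e)) + Real.log (1 - nsq (Real.tanh t • e))) / 2 = _
  rw [h4, geo_nsq e he, geo_nsq e he, h1, h2, Real.log_inv, Real.log_inv, Real.log_pow,
    Real.log_pow, Real.log_div hst.ne' (mul_pos hs ht).ne', Real.log_mul hs.ne' ht.ne']
  push_cast
  ring

theorem log_cosh_le {u : ℝ} (hu : 0 ≤ u) : Real.log (Real.cosh (-u)) ≤ u := by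
  rw [Real.cosh_neg]
  have h1 : Real.cosh u ≤ Real.exp u := by
    rw [Real.cosh_eq]
    have h2 : Real.exp (-u) ≤ Real.exp u := Real.exp_le_exp.2 (by linarith)
    linarith
  have h3 := Real.log_le_log (Real.cosh_pos u) h1
  rwa [Real.log_exp] at h3

theorem le_log_cosh (u : ℝ) : u - 1 ≤ Real.log (Real.cosh (-u)) := by
  rw [Real.cosh_neg]
  have h1 : Real.exp u / 2 ≤ Real.cosh u := by
    rw [Real.cosh_eq]
    have h2 := Real.exp_pos (-u)
    linarith
  have h3 := Real.log_le_log (by positivity) h1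
  rw [Real.log_div (Real.exp_pos u).ne' two_ne_zero, Real.log_exp] at h3
  have h4 := Real.log_two_lt_d9
  linarith

theorem exists_polar {y : E} (hy : y ∈ ball) : ∃ (e : E) (T : ℝ), nsq e = 1 ∧ 0 ≤ T ∧
    Real.tanh T • e = y := by
  rcases (nsq_nonneg y).eq_or_lt with h0 | h0
  · refine ⟨(1, 0), 0, by simp [nsq], le_rfl, ?_⟩
    rw [nsq_eq_zero h0.symm]
    simp
  · have hy1 : nsq y < 1 := hy
    have h1 : 0 < √(nsq y) := Real.sqrt_pos.2 h0
    have h2 : √(nsq y) < 1 := by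
      rw [Real.sqrt_lt' one_pos]
      simpa using hy1
    refine ⟨(√(nsq y))⁻¹ • y, Real.artanh (√(nsq y)), ?_, Real.artanh_nonneg h1.le, ?_⟩
    · rw [nsq_smul_real, inv_pow, Real.sq_sqrt h0.le, inv_mul_cancel₀ h0.ne']
    · rw [Real.tanh_artanh ⟨by linarith, h2⟩, smul_smul, mul_inv_cancel₀ h1.ne', one_smul]

theorem dB_geo (x y : BX) : ∃ (n : ℕ) (w : ℕ → BX), RG dB 5 n w x y := by
  obtain ⟨φ, hφ, h0, hx, hφφ⟩ := swap0 x.2
  obtain ⟨e, T, he, hT, hy⟩ := exists_polar (hφ.maps y.2)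
  have hw : ∀ i : ℕ, φ (Real.tanh (min (i : ℝ) T) • e) ∈ ball := fun i => hφ.maps (geo_mem e he _)
  have hd : ∀ i j : ℕ, dB ⟨_, hw i⟩ ⟨_, hw j⟩ =
      Real.log (Real.cosh (min (i : ℝ) T - min (j : ℝ) T)) := by
    intro i j
    rw [← dB_rad e he]
    unfold dB
    simp only [rad]
    rw [hφ.dl_eq (geo_mem e he _) (geo_mem e he _)]
  have hmono : ∀ i j : ℕ, i ≤ j → min (i : ℝ) T ≤ min (j : ℝ) T := fun i j hij =>
    min_le_min_right T (Nat.cast_le.2 hij)
  have hlow : ∀ j : ℕ, j ≤ ⌈T⌉₊ → (j : ℝ) - 1 ≤ min (j : ℝ) T := by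
    intro j hj
    refine le_min (by linarith) ?_
    rcases Nat.eq_zero_or_pos j with h1 | h1
    · rw [h1]
      push_cast
      linarith
    · have h2 : ((j - 1 : ℕ) : ℝ) < T := by
        rw [← Nat.lt_ceil]
        omega
      rw [Nat.cast_sub h1] at h2
      push_cast at h2
      linarith
  refine ⟨⌈T⌉₊, fun i => ⟨_, hw i⟩, ⟨?_, ?_, ?_, ?_⟩⟩
  · apply Subtype.ext
    change φ (Real.tanh (min ((0 : ℕ) : ℝ) T) • e) = x.1
    rw [Nat.cast_zero, min_eq_left hT, Real.tanh_zero, zero_smul, h0]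
  · apply Subtype.ext
    change φ (Real.tanh (min ((⌈T⌉₊ : ℕ) : ℝ) T) • e) = y.1
    rw [min_eq_right (Nat.le_ceil T), hy, hφφ y.1 y.2]
  · intro i j hij hj
    rw [hd i j]
    have h1 : min (i : ℝ) T - min (j : ℝ) T = -(min (j : ℝ) T - min (i : ℝ) T) := by ring
    rw [h1]
    have h2 := log_cosh_le (sub_nonneg.2 (hmono i j hij))
    have h3 : min (j : ℝ) T - min (i : ℝ) T ≤ (j : ℝ) - i := by
      have hij' : (i : ℝ) ≤ j := Nat.cast_le.2 hij
      rcases le_total (i : ℝ) T with h4 | h4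
      · rw [min_eq_left h4]
        linarith [min_le_left (j : ℝ) T]
      · rw [min_eq_right h4, min_eq_right (h4.trans hij')]
        linarith
    linarith
  · intro i j hij hj
    rw [hd i j]
    have h1 : min (i : ℝ) T - min (j : ℝ) T = -(min (j : ℝ) T - min (i : ℝ) T) := by ring
    rw [h1]
    have h2 := le_log_cosh (min (j : ℝ) T - min (i : ℝ) T)
    have h3 := hlow j hj
    have h4 := min_le_left (i : ℝ) T
    linarith

theorem dB_RH : RH dB 5 where
  one_le := by norm_num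
  nonneg := dB_nonneg
  symm := dB_symm
  fp := dB_fp
  geo := dB_geo

end Pool.Agent.H49.HY
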