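import Pool.Agent.H49.HY.Defs

/-!
# Gromov products: rough triangle inequality, four-point condition, chains
-/

set_option autoImplicit false

namespace Pool.Agent.H49.HY

universe u v

variable {X : Type u} {d : X → X → ℝ} {c : ℝ}

theorem RH.tri (h : RH d c) (x y z : X) : d x y ≤ d x z + d z y + c := by
  have h1 := h.fp x y z z
  rw [h.symm y z, max_self] at h1
  have h2 := h.nonneg z z
  linarith

theorem RH.gp (h : RH d c) (x y z w : X) :
    min (d x w + d y w - d x y) (d y w + d z w - d y z) - c ≤ d x w + d z w - d x z := by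
  have h1 := h.fp x z y w
  rw [h.symm z y] at h1
  rcases le_total (d x y + d z w) (d x w + d y z) with h2 | h2
  · rw [max_eq_right h2] at h1
    have h3 := min_le_right (d x w + d y w - d x y) (d y w + d z w - d y z)
    linarith
  · rw [max_eq_left h2] at h1
    have h3 := min_le_left (d x w + d y w - d x y) (d y w + d z w - d y z)
    linarith

/-- iterated four-point inequality -/
theorem RH.chain (h : RH d c) (w : X) (M : ℝ) (k : ℕ) :
    ∀ (n : ℕ) (x : ℕ → X), 1 ≤ n → n ≤ 2 ^ k →
      (∀ i < n, M ≤ d (x i) w + d (x (i + 1)) w - d (x i) (x (i + 1))) →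
      M - k * c ≤ d (x 0) w + d (x n) w - d (x 0) (x n) := by
  have hc := h.one_le
  induction k with
  | zero =>
    intro n x h1 h2 h3
    have hn : n = 1 := by
      have : (2 : ℕ) ^ 0 = 1 := rfl
      omega
    subst hn
    have := h3 0 (by norm_num)
    simpa using this
  | succ k ih =>
    intro n x h1 h2 h3
    rcases le_or_gt n (2 ^ k) with h4 | h4
    · have := ih n x h1 h4 h3
      push_cast
      linarith
    · have hk : 1 ≤ 2 ^ k := Nat.one_le_two_pow
      have e1 := ih (2 ^ k) x hk le_rfl fun i hi => h3 i (hi.trans h4)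
      have e2 := ih (n - 2 ^ k) (fun i => x (2 ^ k + i)) (by omega) (by rw [pow_succ] at h2; omega)
        fun i hi => h3 (2 ^ k + i) (by omega)
      have e3 : 2 ^ k + (n - 2 ^ k) = n := by omega
      simp only [e3, add_zero] at e2
      have e4 := h.gp (x 0) (x (2 ^ k)) (x n) w
      have e5 : M - k * c ≤ min (d (x 0) w + d (x (2 ^ k)) w - d (x 0) (x (2 ^ k)))
          (d (x (2 ^ k)) w + d (x n) w - d (x (2 ^ k)) (x n)) := le_min e1 e2
      push_cast
      linarith

/-- the chain inequality for quasi-geodesics which avoid the `D`-ball of `x0` -/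
theorem RH.chainQ (h : RH d c) {L : ℝ} (hL : 1 ≤ L) {N : ℕ} {p : ℕ → X} (hp : QG d L N p)
    {x0 : X} {D : ℝ} (hD : ∀ i ≤ N, D ≤ d (p i) x0) (k : ℕ) {i j : ℕ} (hi : i ≤ N) (hj : j ≤ N)
    (h1 : i ≤ j + 2 ^ k) (h2 : j ≤ i + 2 ^ k) :
    2 * D - 2 * L - k * c ≤ d (p i) x0 + d (p j) x0 - d (p i) (p j) := by
  have hc := h.one_le
  have key : ∀ i j : ℕ, i ≤ j → j ≤ N → j ≤ i + 2 ^ k →
      2 * D - 2 * L - k * c ≤ d (p i) x0 + d (p j) x0 - d (p i) (p j) := by
    intro i j hij hjN hjk
    have hk0 : 0 ≤ (k : ℝ) * c := by positivity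
    rcases hij.eq_or_lt with h3 | h3
    · subst h3
      have e1 := hp.le i i le_rfl hjN
      have e2 := hD i hjN
      have e3 : L * ((i : ℝ) - i) = 0 := by ring
      rw [e3] at e1
      linarith
    · have e1 := h.chain x0 (2 * D - 2 * L) k (j - i) (fun l => p (i + l)) (by omega) (by omega)
        fun l hl => by
          have e2 := hp.le (i + l) (i + (l + 1)) (by omega) (by omega)
          have e3 := hD (i + l) (by omega)
          have e4 := hD (i + (l + 1)) (by omega)
          have e5 : (((i + (l + 1) : ℕ) : ℝ) - ((i + l : ℕ) : ℝ)) = 1 := by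
            push_cast
            ring
          rw [e5] at e2
          linarith
      have e3 : i + (j - i) = j := by omega
      simp only [e3, add_zero] at e1
      exact e1
  rcases le_total i j with h3 | h3
  · exact key i j h3 hj h2
  · have := key j i h3 hi h1
    rw [h.symm (p j) (p i)] at this
    linarith

/-- linear functions are eventually smaller than powers of two -/
theorem exists_pow_ge (α β : ℝ) : ∃ k0 : ℕ, ∀ k : ℕ, k0 ≤ k → α * k + β ≤ 2 ^ k := by
  obtain ⟨A, hA⟩ := exists_nat_ge (max α β)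
  have hα : α ≤ A := (le_max_left _ _).trans hA
  have hβ : β ≤ A := (le_max_right _ _).trans hA
  have h1 : Filter.Tendsto (fun n : ℕ => ((n : ℝ) + 1) ^ 2 * (1 / 2 : ℝ) ^ n) Filter.atTop
      (nhds 0) := by
    have h2 : Filter.Tendsto (fun n : ℕ => (n : ℝ) ^ 2 * (1 / 2 : ℝ) ^ n) Filter.atTop (nhds 0) :=
      tendsto_pow_const_mul_const_pow_of_abs_lt_one 2 (by
        rw [abs_of_pos] <;> norm_num)
    have h3 := (h2.comp (Filter.tendsto_add_atTop_nat 1)).const_mul 2
    rw [mul_zero] at h3
    refine h3.congr fun n => ?_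
    simp only [Function.comp]
    push_cast
    rw [pow_succ (1 / 2 : ℝ) n]
    ring
  have h4 : ∀ᶠ n : ℕ in Filter.atTop, ((n : ℝ) + 1) ^ 2 * (1 / 2 : ℝ) ^ n < 1 :=
    h1.eventually_lt_const one_pos
  obtain ⟨n0, hn0⟩ := Filter.eventually_atTop.1 h4
  refine ⟨max n0 A, fun k hk => ?_⟩
  have h5 := hn0 k ((le_max_left _ _).trans hk)
  have h6 : (A : ℝ) ≤ k := by exact_mod_cast (le_max_right _ _).trans hk
  have h7 : ((k : ℝ) + 1) ^ 2 < 2 ^ k := by
    have e1 : (0 : ℝ) < 2 ^ k := by positivity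
    have e2 : ((k : ℝ) + 1) ^ 2 * (1 / 2 : ℝ) ^ k * 2 ^ k < 1 * 2 ^ k :=
      mul_lt_mul_of_pos_right h5 e1
    rw [mul_assoc, ← mul_pow] at e2
    norm_num at e2
    exact e2
  have h8 : (0 : ℝ) ≤ k := Nat.cast_nonneg k
  have h9 : α * k ≤ k * k := mul_le_mul_of_nonneg_right (hα.trans h6) h8
  nlinarith

end Pool.Agent.H49.HY
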