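import Pool.Agent.H49.HY.Geo
import Pool.Agent.H49.HY.Cay
import Pool.Agent.H49.HY.FinA

/-!
# A group acting properly discontinuously and cocompactly on the complex ball is hyperbolic
-/

set_option autoImplicit false

namespace Pool.Agent.H49.HY

open Complex Pool.Agent.H89.SG
open scoped ComplexConjugate

theorem exists_nsq_le_of_dB (C : ℝ) {r : ℝ} (hr : r < 1) :
    ∃ r' : ℝ, r ≤ r' ∧ r' < 1 ∧ ∀ x y : BX, nsq x.1 ≤ r → dB x y ≤ C → nsq y.1 ≤ r' := by
  have h1 : √r < 1 := by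
    rw [Real.sqrt_lt' one_pos]
    simpa using hr
  have h2 : 0 < 1 - √r := by linarith
  refine ⟨max r (1 - Real.exp (2 * (Real.log (1 - √r) - C))), le_max_left _ _,
    max_lt hr (by linarith [Real.exp_pos (2 * (Real.log (1 - √r) - C))]), ?_⟩
  intro x y hx hxy
  refine le_trans ?_ (le_max_right _ _)
  have px := one_sub_nsq_pos x
  have py := one_sub_nsq_pos y
  rw [dB_eq] at hxy
  have e1 : Real.log (1 - nsq x.1) ≤ 0 :=
    Real.log_nonpos px.le (by linarith [nsq_nonneg x.1])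
  have e2 : ‖her x.1 y.1‖ ≤ √r := by
    refine Real.le_sqrt_of_sq_le ?_
    have h3 := normSq_her_le x.1 y.1
    rw [normSq_eq_norm_sq] at h3
    have h4 : nsq x.1 * nsq y.1 ≤ nsq x.1 * 1 :=
      mul_le_mul_of_nonneg_left (by linarith) (nsq_nonneg _)
    linarith
  have e3 : 1 - √r ≤ ‖1 - her x.1 y.1‖ := by
    have h3 := norm_sub_norm_le (1 : ℂ) (her x.1 y.1)
    rw [norm_one] at h3
    linarith
  have e4 := Real.log_le_log h2 e3
  have e5 : 2 * (Real.log (1 - √r) - C) ≤ Real.log (1 - nsq y.1) := by linarith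
  have e6 := Real.exp_le_exp.2 e5
  rw [Real.exp_log py] at e6
  linarith

variable {G : Type} [Group G] {m : G → E → E}

/-- the orbit of the centre -/
noncomputable def orb (hm : BAct G m) (g : G) : BX := ⟨m g 0, hm.mem g zero_mem_ball⟩

/-- the action on points of the ball -/
noncomputable def am (hm : BAct G m) (g : G) (x : BX) : BX := ⟨m g x.1, hm.mem g x.2⟩

theorem dB_am (hm : BAct G m) (g : G) (x y : BX) : dB (am hm g x) (am hm g y) = dB x y := by
  unfold dB am
  simp only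
  rw [(hm.aut g).dl_eq x.2 y.2]

theorem orb_mul (hm : BAct G m) (g h : G) : orb hm (g * h) = am hm g (orb hm h) := by
  apply Subtype.ext
  exact hm.mul g h 0 zero_mem_ball

theorem dB_orb (hm : BAct G m) (g h : G) :
    dB (orb hm g) (orb hm h) = dB (orb hm 1) (orb hm (g⁻¹ * h)) := by
  have h1 : orb hm g = am hm g (orb hm 1) := by rw [← orb_mul, mul_one]
  have h2 : orb hm h = am hm g (orb hm (g⁻¹ * h)) := by rw [← orb_mul, mul_inv_cancel_left]
  rw [h1, h2, dB_am]

/-- the orbit map is Lipschitz -/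
theorem ms_upper (hm : BAct G m) {S : Finset G} (hc : (Cay S).Connected) :
    ∃ A : ℝ, 0 ≤ A ∧ ∀ a b : G, dB (orb hm a) (orb hm b) ≤ (A + 5) * (Cay S).dist a b + 5 := by
  obtain ⟨A, hAe⟩ : ∃ A : ℝ, A = ∑ s ∈ S, dB (orb hm 1) (orb hm s) := ⟨_, rfl⟩
  have hA0 : 0 ≤ A := by
    rw [hAe]
    exact Finset.sum_nonneg fun s _ => dB_nonneg _ _
  have hA : ∀ s ∈ S, dB (orb hm 1) (orb hm s) ≤ A := fun s hs => by
    rw [hAe]
    exact Finset.single_le_sum (f := fun s => dB (orb hm 1) (orb hm s))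
      (fun i _ => dB_nonneg _ _) hs
  have hadj : ∀ g h : G, (Cay S).Adj g h → dB (orb hm g) (orb hm h) ≤ A := by
    intro g h hgh
    rw [cay_adj] at hgh
    rcases hgh.2 with h1 | h1
    · rw [dB_orb]
      exact hA _ h1
    · rw [dB_symm, dB_orb]
      exact hA _ h1
  have hwalk : ∀ (a b : G) (W : (Cay S).Walk a b),
      dB (orb hm a) (orb hm b) ≤ (A + 5) * W.length + 5 := by
    intro a b W
    induction W with
    | nil =>
      rw [dB_self, SimpleGraph.Walk.length_nil]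
      push_cast
      linarith
    | @cons u v w h p ih =>
      have h1 := dB_RH.tri (orb hm u) (orb hm w) (orb hm v)
      have h2 := hadj u v h
      rw [SimpleGraph.Walk.length_cons]
      push_cast
      linarith
  refine ⟨A, hA0, fun a b => ?_⟩
  obtain ⟨W, hW⟩ := hc.exists_walk_length_eq_dist a b
  rw [← hW]
  exact hwalk a b W

/-- the Milnor-Svarc lower bound -/
theorem ms_lower (hm : BAct G m) {S : Finset G} (hc : (Cay S).Connected) :
    ∃ B : ℕ, ∀ a b : G, ((Cay S).dist a b : ℝ) ≤ B * (dB (orb hm a) (orb hm b) + 6) := by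
  classical
  obtain ⟨r, hr1, hr⟩ := hm.cc
  have hr0 : 0 ≤ r := by
    obtain ⟨g, hg⟩ := hr 0 zero_mem_ball
    exact (nsq_nonneg _).trans hg
  obtain ⟨r', hrr', hr'1, hr'⟩ := exists_nsq_le_of_dB 6 hr1
  have hF := hm.pd r' hr'1
  obtain ⟨B, hBe⟩ : ∃ B : ℕ, B = ∑ g ∈ hF.toFinset, (Cay S).dist 1 g := ⟨_, rfl⟩
  have hB : ∀ g : G, (∃ z, nsq z ≤ r' ∧ nsq (m g z) ≤ r') → (Cay S).dist 1 g ≤ B := by
    intro g hg
    rw [hBe]
    exact Finset.single_le_sum (f := fun g => (Cay S).dist 1 g) (fun i _ => Nat.zero_le _)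
      (hF.mem_toFinset.2 hg)
  have hB2 : ∀ g h : G, (∃ z, nsq z ≤ r' ∧ nsq (m (g⁻¹ * h) z) ≤ r') → (Cay S).dist g h ≤ B := by
    intro g h hgh
    have h1 := cay_dist_left hc g 1 (g⁻¹ * h)
    rw [mul_one, mul_inv_cancel_left] at h1
    rw [h1]
    exact hB _ hgh
  refine ⟨B, fun a b => ?_⟩
  obtain ⟨n, w, hw⟩ := dB_geo (orb hm a) (orb hm b)
  have hchain : ∀ i : ℕ, i ≤ n → ∃ g : G, (Cay S).dist a g ≤ i * B ∧ nsq (m g⁻¹ (w i).1) ≤ r := by
    intro i
    induction i with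
    | zero =>
      intro _
      refine ⟨a, by simp, ?_⟩
      rw [hw.s]
      change nsq (m a⁻¹ (m a 0)) ≤ r
      rw [hm.inv_left a zero_mem_ball, nsq_zero]
      exact hr0
    | succ i ih =>
      intro hi
      obtain ⟨g, hg1, hg2⟩ := ih (by omega)
      obtain ⟨k, hk⟩ := hr (w (i + 1)).1 (w (i + 1)).2
      refine ⟨k⁻¹, ?_, by rw [inv_inv]; exact hk⟩
      have h1 : (Cay S).dist g k⁻¹ ≤ B := by
        refine hB2 g k⁻¹ ⟨m k (w (i + 1)).1, hk.trans hrr', ?_⟩
        rw [hm.mul g⁻¹ k⁻¹ _ (hm.mem k (w (i + 1)).2), hm.inv_left k (w (i + 1)).2]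
        have h2 := hw.le i (i + 1) (Nat.le_succ i) hi
        rw [← dB_am hm g⁻¹] at h2
        push_cast at h2
        exact hr' (am hm g⁻¹ (w i)) (am hm g⁻¹ (w (i + 1))) hg2 (by linarith)
      have h2 := hc.dist_triangle (u := a) (v := g) (w := k⁻¹)
      have h3 : (i + 1) * B = i * B + B := by ring
      omega
  obtain ⟨g, hg1, hg2⟩ := hchain n le_rfl
  have h1 : (Cay S).dist g b ≤ B := by
    refine hB2 g b ⟨0, by rw [nsq_zero]; exact hr0.trans hrr', ?_⟩
    rw [hm.mul g⁻¹ b _ zero_mem_ball]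
    rw [hw.e] at hg2
    exact hg2.trans hrr'
  have h2 := hc.dist_triangle (u := a) (v := g) (w := b)
  have h3 : (Cay S).dist a b ≤ n * B + B := by omega
  have h4 : ((Cay S).dist a b : ℝ) ≤ n * B + B := by exact_mod_cast h3
  have h5 := hw.ge 0 n (Nat.zero_le _) le_rfl
  rw [hw.s, hw.e] at h5
  push_cast at h5
  have h6 : (n : ℝ) + 1 ≤ dB (orb hm a) (orb hm b) + 6 := by linarith
  have h7 : (0 : ℝ) ≤ B := Nat.cast_nonneg B
  have h8 := mul_le_mul_of_nonneg_left h6 h7
  linarith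

/-- **Hyperbolicity.** The word metric of a group which acts properly discontinuously and
cocompactly on the complex ball satisfies the four-point condition. -/
theorem hyp_of_bact (hm : BAct G m) {S : Finset G} (hS : Subgroup.closure (S : Set G) = ⊤) :
    ∃ δ : ℕ, ∀ x y z w : G,
      (SimpleGraph.fromRel fun g h : G => g⁻¹ * h ∈ S).dist x y
        + (SimpleGraph.fromRel fun g h : G => g⁻¹ * h ∈ S).dist z w ≤
      max ((SimpleGraph.fromRel fun g h : G => g⁻¹ * h ∈ S).dist x z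
            + (SimpleGraph.fromRel fun g h : G => g⁻¹ * h ∈ S).dist y w)
          ((SimpleGraph.fromRel fun g h : G => g⁻¹ * h ∈ S).dist x w
            + (SimpleGraph.fromRel fun g h : G => g⁻¹ * h ∈ S).dist y z) + 2 * δ := by
  have hc := cay_connected hS
  obtain ⟨A, hA0, hA⟩ := ms_upper hm hc
  obtain ⟨B, hB⟩ := ms_lower hm hc
  have hB0 : (0 : ℝ) ≤ B := Nat.cast_nonneg B
  refine four_abs (Γ := Cay S) hc dB_RH (orb hm) (L := A + 5 + 6 * B) (by linarith)
    (fun a b => ?_) (fun a b => ?_)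
  · have h1 := hA a b
    have h2 : (0 : ℝ) ≤ (Cay S).dist a b := Nat.cast_nonneg _
    nlinarith [mul_nonneg hB0 h2]
  · have h1 := hB a b
    have h2 := dB_nonneg (orb hm a) (orb hm b)
    nlinarith [mul_nonneg hB0 h2, mul_nonneg hA0 h2]

end Pool.Agent.H49.HY
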