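import Pool.Agent.H49.HY.Gr

/-!
# The Morse lemma, first half: a rough geodesic stays close to a quasi-geodesic
-/

set_option autoImplicit false

namespace Pool.Agent.H49.HY

universe u v

variable {X : Type u} {d : X → X → ℝ} {c : ℝ}

/-- the main estimate: if `w t0` is at distance at least `D` from the path and all `w t` are at
distance at most `D`, then `D` is bounded -/
private theorem mo1_key (h : RH d c) {L : ℝ} (hL : 1 ≤ L) {N : ℕ} {p : ℕ → X} {n : ℕ} {w : ℕ → X}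
    (hp : QG d L N p) (hw : RG d c n w (p 0) (p N)) {D : ℝ} {t0 : ℕ} (ht0 : t0 ≤ n)
    (hD0 : 0 ≤ D) (hD : ∀ i ≤ N, D ≤ d (p i) (w t0)) (hD2 : ∀ t ≤ n, ∃ i ≤ N, d (w t) (p i) ≤ D)
    (k : ℕ) (hk : 6 * L * D + L * (5 * c + 3) ≤ 2 ^ k) : 2 * D ≤ k * c + 2 * L + 7 * c := by
  have hc := h.one_le
  obtain ⟨s, hs1, hs2⟩ : ∃ s : ℕ, 2 * D ≤ s ∧ (s : ℝ) ≤ 2 * D + 1 :=
    ⟨⌈2 * D⌉₊, Nat.le_ceil _, (Nat.ceil_lt_add_one (by linarith)).le⟩
  -- the left point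
  obtain ⟨t1, ht1, ht1s, i1, hi1, h1a, h1b⟩ : ∃ t1, t1 ≤ t0 ∧ t0 ≤ t1 + s ∧ ∃ i1 ≤ N,
      d (w t1) (p i1) ≤ D + c ∧
      2 * D - c ≤ d (w t1) (w t0) + d (p i1) (w t0) - d (w t1) (p i1) := by
    rcases le_or_gt s t0 with hst | hst
    · obtain ⟨i1, hi1, h1⟩ := hD2 (t0 - s) (by omega)
      refine ⟨t0 - s, by omega, by omega, i1, hi1, by linarith, ?_⟩
      have h2 := hw.ge (t0 - s) t0 (by omega) ht0
      have h3 : ((t0 - s : ℕ) : ℝ) = (t0 : ℝ) - s := by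
        rw [Nat.cast_sub hst]
      rw [h3] at h2
      have h4 := hD i1 hi1
      linarith
    · refine ⟨0, by omega, by omega, 0, by omega, ?_, ?_⟩
      · have h2 := hw.le 0 0 le_rfl (by omega)
        rw [hw.s] at h2 ⊢
        have h3 : ((0 : ℕ) : ℝ) - ((0 : ℕ) : ℝ) = 0 := sub_self _
        rw [h3] at h2
        linarith
      · have h2 := hw.le 0 0 le_rfl (by omega)
        have h4 := hD 0 (by omega)
        rw [hw.s] at h2 ⊢
        have h3 : ((0 : ℕ) : ℝ) - ((0 : ℕ) : ℝ) = 0 := sub_self _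
        rw [h3] at h2
        linarith
  -- the right point
  obtain ⟨t2, ht2, ht2n, ht2s, i2, hi2, h2a, h2b⟩ : ∃ t2, t0 ≤ t2 ∧ t2 ≤ n ∧ t2 ≤ t0 + s ∧
      ∃ i2 ≤ N, d (w t2) (p i2) ≤ D + c ∧
      2 * D - c ≤ d (w t2) (w t0) + d (p i2) (w t0) - d (w t2) (p i2) := by
    rcases le_or_gt (t0 + s) n with hst | hst
    · obtain ⟨i2, hi2, h1⟩ := hD2 (t0 + s) hst
      refine ⟨t0 + s, by omega, hst, le_rfl, i2, hi2, by linarith, ?_⟩
      have h2 := hw.ge t0 (t0 + s) (by omega) hst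
      rw [h.symm (w t0) (w (t0 + s))] at h2
      push_cast at h2
      have h4 := hD i2 hi2
      linarith
    · refine ⟨n, ht0, le_rfl, by omega, N, le_rfl, ?_, ?_⟩
      · have h2 := hw.le n n le_rfl le_rfl
        rw [hw.e] at h2 ⊢
        rw [sub_self] at h2
        linarith
      · have h2 := hw.le n n le_rfl le_rfl
        have h4 := hD N le_rfl
        rw [hw.e] at h2 ⊢
        rw [sub_self] at h2
        linarith
  have r1 : (t0 : ℝ) ≤ t1 + s := by exact_mod_cast ht1s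
  have r2 : (t2 : ℝ) ≤ t0 + s := by exact_mod_cast ht2s
  -- the distance between the two points
  have e1 := hw.le t1 t2 (ht1.trans ht2) ht2n
  have e2 := hw.ge t1 t2 (ht1.trans ht2) ht2n
  have e3 := hw.le t1 t0 ht1 ht0
  have e4 := hw.le t0 t2 ht2 ht2n
  have e5 : d (p i1) (p i2) ≤ 6 * D + 5 * c + 2 := by
    have f1 := h.tri (p i1) (p i2) (w t1)
    have f2 := h.tri (w t1) (p i2) (w t2)
    rw [h.symm (p i1) (w t1)] at f1
    linarith
  have e6 : L * d (p i1) (p i2) + L ≤ 2 ^ k := by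
    have f1 := mul_le_mul_of_nonneg_left e5 (by linarith : (0 : ℝ) ≤ L)
    nlinarith
  have e7 : i1 ≤ i2 + 2 ^ k ∧ i2 ≤ i1 + 2 ^ k := by
    rcases le_total i1 i2 with h3 | h3
    · have f1 := (hp.ge i1 i2 h3 hi2).trans e6
      have f2 : (i2 : ℝ) ≤ ((i1 + 2 ^ k : ℕ) : ℝ) := by
        push_cast
        linarith
      exact ⟨h3.trans (Nat.le_add_right _ _), by exact_mod_cast f2⟩
    · have f1 := hp.ge i2 i1 h3 hi1
      rw [h.symm (p i2) (p i1)] at f1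
      have f3 := f1.trans e6
      have f2 : (i1 : ℝ) ≤ ((i2 + 2 ^ k : ℕ) : ℝ) := by
        push_cast
        linarith
      exact ⟨by exact_mod_cast f2, h3.trans (Nat.le_add_right _ _)⟩
  have e8 := h.chainQ hL hp hD k hi1 hi2 e7.1 e7.2
  have e9 := h.gp (w t1) (p i1) (p i2) (w t0)
  have e10 := h.gp (w t1) (p i2) (w t2) (w t0)
  rw [h.symm (p i2) (w t2)] at e10
  have hk0 : 0 ≤ (k : ℝ) * c := by positivity
  have e11 : 2 * D - 2 * L - k * c - c ≤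
      min (d (w t1) (w t0) + d (p i1) (w t0) - d (w t1) (p i1))
        (d (p i1) (w t0) + d (p i2) (w t0) - d (p i1) (p i2)) :=
    le_min (by linarith) (by linarith)
  have e12 : 2 * D - 2 * L - k * c - 2 * c ≤
      min (d (w t1) (w t0) + d (p i2) (w t0) - d (w t1) (p i2))
        (d (p i2) (w t0) + d (w t2) (w t0) - d (w t2) (p i2)) :=
    le_min (by linarith) (by linarith)
  rw [h.symm (w t0) (w t2)] at e4
  linarith

theorem morse1 (h : RH d c) {L : ℝ} (hL : 1 ≤ L) : ∃ D : ℝ, 0 ≤ D ∧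
    ∀ (N : ℕ) (p : ℕ → X) (n : ℕ) (w : ℕ → X), QG d L N p → RG d c n w (p 0) (p N) →
      ∀ t ≤ n, ∃ i ≤ N, d (w t) (p i) ≤ D := by
  have hc := h.one_le
  obtain ⟨k0, hk0⟩ := exists_pow_ge (3 * L * c) (3 * L * (8 * c + 2 * L) + L * (5 * c + 3))
  have hk00 : (0 : ℝ) ≤ k0 := Nat.cast_nonneg k0
  refine ⟨((k0 + 1) * c + 2 * L + 7 * c) / 2, by positivity, ?_⟩
  intro N p n w hp hw
  -- nearest points
  have hI : ∀ t : ℕ, ∃ i ≤ N, ∀ j ≤ N, d (w t) (p i) ≤ d (w t) (p j) := by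
    intro t
    obtain ⟨i, hi, hi2⟩ := Finset.exists_min_image (Finset.range (N + 1)) (fun i => d (w t) (p i))
      ⟨0, by simp⟩
    refine ⟨i, by simpa [Nat.lt_succ_iff] using hi, fun j hj => hi2 j ?_⟩
    simpa [Nat.lt_succ_iff] using hj
  choose I hIN hI2 using hI
  obtain ⟨t0, ht0, ht0m⟩ := Finset.exists_max_image (Finset.range (n + 1))
    (fun t => d (w t) (p (I t))) ⟨0, by simp⟩
  have ht0n : t0 ≤ n := by simpa [Nat.lt_succ_iff] using ht0
  have hmax : ∀ t ≤ n, d (w t) (p (I t)) ≤ d (w t0) (p (I t0)) := fun t ht =>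
    ht0m t (by simpa [Nat.lt_succ_iff] using ht)
  suffices hb : d (w t0) (p (I t0)) ≤ ((k0 + 1) * c + 2 * L + 7 * c) / 2 from
    fun t ht => ⟨I t, hIN t, (hmax t ht).trans hb⟩
  by_contra hcon
  rw [not_le] at hcon
  obtain ⟨D, hD⟩ : ∃ D : ℝ, D = d (w t0) (p (I t0)) := ⟨_, rfl⟩
  rw [← hD] at hcon
  obtain ⟨r, hr⟩ : ∃ r : ℝ, r = (2 * D - 2 * L - 7 * c) / c := ⟨_, rfl⟩
  have hc0 : 0 < c := by linarith
  have hrc : r * c = 2 * D - 2 * L - 7 * c := by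
    rw [hr]
    field_simp
  have hr1 : (k0 : ℝ) + 1 < r := by
    rw [hr, lt_div_iff₀ hc0]
    linarith
  have hceil : 1 ≤ ⌈r⌉₊ := by
    rw [Nat.one_le_ceil_iff]
    linarith
  have hk1 : ((⌈r⌉₊ - 1 : ℕ) : ℝ) < r := by
    rw [← Nat.lt_ceil]
    omega
  have hk2 : r ≤ ((⌈r⌉₊ - 1 : ℕ) : ℝ) + 1 := by
    have h1 := Nat.le_ceil r
    rw [Nat.cast_sub hceil]
    push_cast
    linarith
  obtain ⟨k, hk⟩ : ∃ k : ℕ, k = ⌈r⌉₊ - 1 := ⟨_, rfl⟩
  rw [← hk] at hk1 hk2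
  have hkk : k0 ≤ k := by
    have h1 : (k0 : ℝ) < (k : ℝ) := by linarith
    exact_mod_cast h1.le
  have h2 := hk0 k hkk
  have h3 : 2 * D ≤ (k + 1) * c + 2 * L + 7 * c := by
    have := mul_le_mul_of_nonneg_right hk2 hc0.le
    linarith
  have h4 : 6 * L * D + L * (5 * c + 3) ≤ 2 ^ k := by
    refine le_trans ?_ h2
    have := mul_le_mul_of_nonneg_left h3 (by linarith : (0 : ℝ) ≤ 3 * L)
    nlinarith
  have h5 := mo1_key h hL hp hw ht0n (D := D) (by rw [hD]; exact h.nonneg _ _)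
    (fun i hi => by
      rw [hD, h.symm (p i) (w t0)]
      exact hI2 t0 i hi)
    (fun t ht => ⟨I t, hIN t, by rw [hD]; exact hmax t ht⟩) k h4
  have h6 := mul_lt_mul_of_pos_right hk1 hc0
  linarith

end Pool.Agent.H49.HY
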