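import Pool.Agent.H49.HY.Mo1

/-!
# The Morse lemma, second half, and slim quasi-geodesic triangles
-/

set_option autoImplicit false

namespace Pool.Agent.H49.HY

universe u v

variable {X : Type u} {d : X → X → ℝ} {c : ℝ}

theorem morse2 (h : RH d c) {L : ℝ} (hL : 1 ≤ L) : ∃ D : ℝ, 0 ≤ D ∧
    ∀ (N : ℕ) (p : ℕ → X) (n : ℕ) (w : ℕ → X), QG d L N p → RG d c n w (p 0) (p N) →
      ∀ i ≤ N, ∃ t ≤ n, d (p i) (w t) ≤ D := by
  classical
  have hc := h.one_le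
  obtain ⟨D0, hD0, hM⟩ := morse1 h hL
  refine ⟨L * (L * (2 * D0 + 1 + 4 * c) + L) + L + D0 + 2 * c, by positivity, ?_⟩
  intro N p n w hp hw i hi
  obtain ⟨P, hP⟩ : ∃ P : ℕ → Prop, P = fun t => ∃ j ≤ i, d (w t) (p j) ≤ D0 + c := ⟨_, rfl⟩
  have hP0 : P 0 := by
    rw [hP]
    refine ⟨0, Nat.zero_le _, ?_⟩
    have h2 := hw.le 0 0 le_rfl (Nat.zero_le _)
    rw [hw.s] at h2 ⊢
    rw [sub_self] at h2
    linarith
  obtain ⟨t, ht⟩ : ∃ t, t = Nat.findGreatest P n := ⟨_, rfl⟩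
  have htn : t ≤ n := by rw [ht]; exact Nat.findGreatest_le n
  have hPt : P t := by
    rw [ht]
    exact Nat.findGreatest_spec (Nat.zero_le n) hP0
  have hmax : ∀ k, t < k → k ≤ n → ¬ P k := fun k hk hkn => by
    rw [ht] at hk
    exact Nat.findGreatest_is_greatest hk hkn
  rw [hP] at hPt
  obtain ⟨j, hji, hj⟩ := hPt
  obtain ⟨j', hij', hj'N, hj'⟩ : ∃ j', i ≤ j' ∧ j' ≤ N ∧ d (w t) (p j') ≤ D0 + 1 + 2 * c := by
    rcases htn.eq_or_lt with h1 | h1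
    · refine ⟨N, hi, le_rfl, ?_⟩
      have h2 := hw.le n n le_rfl le_rfl
      rw [h1]
      rw [hw.e] at h2 ⊢
      rw [sub_self] at h2
      linarith
    · obtain ⟨j', hj', h2⟩ := hM N p n w hp hw (t + 1) h1
      have h3 : i < j' := by
        by_contra hcon
        refine hmax (t + 1) (Nat.lt_succ_self t) h1 ?_
        rw [hP]
        exact ⟨j', not_lt.1 hcon, by linarith⟩
      refine ⟨j', h3.le, hj', ?_⟩
      have h4 := hw.le t (t + 1) (Nat.le_succ t) h1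
      push_cast at h4
      have h5 := h.tri (w t) (p j') (w (t + 1))
      linarith
  have h1 := h.tri (p j) (p j') (w t)
  rw [h.symm (p j) (w t)] at h1
  have h2 := hp.ge j j' (hji.trans hij') hj'N
  have h3 : L * d (p j) (p j') ≤ L * (2 * D0 + 1 + 4 * c) :=
    mul_le_mul_of_nonneg_left (by linarith) (by linarith)
  have h4 : (i : ℝ) ≤ j' := by exact_mod_cast hij'
  have h5 : (i : ℝ) - j ≤ L * (2 * D0 + 1 + 4 * c) + L := by linarith
  have h6 := hp.le j i hji hi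
  have h7 : L * ((i : ℝ) - j) ≤ L * (L * (2 * D0 + 1 + 4 * c) + L) :=
    mul_le_mul_of_nonneg_left h5 (by linarith)
  have h8 := h.tri (p i) (w t) (p j)
  rw [h.symm (p i) (p j), h.symm (p j) (w t)] at h8
  exact ⟨t, htn, by linarith⟩

/-- a point with small Gromov product is close to the rough geodesic -/
theorem near (h : RH d c) {x y z : X} {n : ℕ} {v : ℕ → X} (hv : RG d c n v y z)
    (hx : d y x + d z x - d y z ≤ 4 * c) : ∃ s ≤ n, d x (v s) ≤ 9 * c := by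
  have hc := h.one_le
  have hn := hv.le 0 n (Nat.zero_le _) le_rfl
  have hn2 := hv.ge 0 n (Nat.zero_le _) le_rfl
  rw [hv.s, hv.e] at hn hn2
  push_cast at hn hn2
  obtain ⟨s, hs⟩ : ∃ s : ℕ, s = min n ⌊d y x⌋₊ := ⟨_, rfl⟩
  have hsn : s ≤ n := by rw [hs]; exact min_le_left _ _
  have hsx : (s : ℝ) ≤ d y x := by
    have h1 : s ≤ ⌊d y x⌋₊ := by rw [hs]; exact min_le_right _ _
    exact (Nat.cast_le.2 h1).trans (Nat.floor_le (h.nonneg _ _))
  have h0 := h.nonneg z x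
  have hxs : d y x ≤ s + 5 * c + 1 := by
    rcases le_total n ⌊d y x⌋₊ with h1 | h1
    · rw [hs, min_eq_left h1]
      linarith
    · rw [hs, min_eq_right h1]
      have := Nat.lt_floor_add_one (d y x)
      linarith
  have h1 := hv.le s n hsn le_rfl
  rw [hv.e] at h1
  have h2 := hv.le 0 s (Nat.zero_le _) hsn
  rw [hv.s] at h2
  push_cast at h2
  have h3 := h.fp x (v s) y z
  rw [h.symm x y, h.symm x z, h.symm (v s) y] at h3
  refine ⟨s, hsn, ?_⟩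
  rcases le_total (d y x + d (v s) z) (d z x + d y (v s)) with h4 | h4
  · rw [max_eq_right h4] at h3
    linarith
  · rw [max_eq_left h4] at h3
    linarith

theorem slimQ (h : RH d c) {L : ℝ} (hL : 1 ≤ L) : ∃ K : ℝ,
    ∀ (N : ℕ) (p : ℕ → X) (N1 : ℕ) (q : ℕ → X) (N2 : ℕ) (r : ℕ → X), QG d L N p →
      QG d L N1 q → QG d L N2 r → q 0 = p 0 → q N1 = r 0 → r N2 = p N → ∀ i ≤ N,
      (∃ j ≤ N1, d (p i) (q j) ≤ K) ∨ (∃ j ≤ N2, d (p i) (r j) ≤ K) := by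
  have hc := h.one_le
  obtain ⟨D1, hD1, hM1⟩ := morse1 h hL
  obtain ⟨D2, hD2, hM2⟩ := morse2 h hL
  refine ⟨D2 + D1 + 11 * c, ?_⟩
  intro N p N1 q N2 r hp hq hr e1 e2 e3 i hi
  obtain ⟨n, w, hw⟩ := h.geo (p 0) (p N)
  obtain ⟨t, ht, hit⟩ := hM2 N p n w hp hw i hi
  have f1 := hw.le 0 t (Nat.zero_le _) ht
  have f2 := hw.le t n ht le_rfl
  have f3 := hw.ge 0 n (Nat.zero_le _) le_rfl
  rw [hw.s] at f1 f3
  rw [hw.e] at f2 f3
  push_cast at f1 f3
  rw [h.symm (w t) (p N)] at f2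
  have f4 : ∀ {y z : X} {N' : ℕ} {q' : ℕ → X}, QG d L N' q' → q' 0 = y → q' N' = z →
      d y (w t) + d z (w t) - d y z ≤ 4 * c → ∃ j ≤ N', d (p i) (q' j) ≤ D2 + D1 + 11 * c := by
    intro y z N' q' hq' ey ez hyz
    obtain ⟨n', v, hv⟩ := h.geo y z
    obtain ⟨s, hs, hs2⟩ := near h hv hyz
    rw [← ey, ← ez] at hv
    obtain ⟨j, hj, hj2⟩ := hM1 N' q' n' v hq' hv s hs
    refine ⟨j, hj, ?_⟩
    have g1 := h.tri (p i) (q' j) (w t)
    have g2 := h.tri (w t) (q' j) (v s)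
    linarith
  have f5 := h.gp (p 0) (r 0) (p N) (w t)
  rcases le_total (d (p 0) (w t) + d (r 0) (w t) - d (p 0) (r 0))
    (d (r 0) (w t) + d (p N) (w t) - d (r 0) (p N)) with f6 | f6
  · rw [min_eq_left f6] at f5
    exact Or.inl (f4 hq e1 e2 (by linarith))
  · rw [min_eq_right f6] at f5
    exact Or.inr (f4 hr rfl e3 (by linarith))

end Pool.Agent.H49.HY
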